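import Pool.Agent.Y148.ZC.All

/-!
# Chow-Künneth decompositions and algebraic correspondences

**Theorem.** For smooth projective complex varieties the following statements are equivalent.

1. Every `X` has a Chow-Künneth decomposition, and every `G ∈ CH^d(X × X)`, `d = dim X`, satisfies an
   algebraic equation `f(G) = 0`, `f ∈ ℚ[t]` nonzero.
2. The Künneth conjecture holds, and every `G ∈ CH^d(X × X)` satisfies an algebraic equation.
3. The Künneth conjecture holds, and for all `X`, all `G ∈ CH^d(X × X)` and all zero-cycles `x` on
   `X` the zero-cycles `x, G_* x, (G_*)^2 x, …` are linearly dependent in `CH_0(X)` (with rational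
   coefficients).
4. The same for homologically trivial `G`.

So all complex varieties have Chow-Künneth decompositions if the Künneth conjecture holds and the
orbits of zero-cycles under self-correspondences span finite-dimensional spaces. Nilpotence of
homologically trivial correspondences, or finite-dimensionality, is not needed.

The cohomology is rational cohomology (finite-dimensional over `ℚ`). The theorem of Bloch and Srinivas
is the hypothesis `BlochSrinivas`, see `Pool.Agent.Results.MP_868bb7_ag.ZeroCycles`.

For the proof see `Pool.Agent.Results.MP_638e8a_ag.AlgebraicOnZeroCycles`, which is about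
homologically trivial `G`, any Weil cohomology theory and any uncountable algebraically closed field.
For rational cohomology and any `G` there is a nonzero polynomial `f` such that `f(G)` is
homologically trivial, so `G` is algebraic if `f(G)` is.
-/

open CategoryTheory AlgebraicGeometry

universe u v

namespace Pool.Agent.Results.MP_524776_ag.AlgebraicCorrespondences

open Pool.Agent.H914 Pool.Agent.W492.BB Pool.Agent.TH133 Pool.Agent.Y148.ZC

/-- Chow-Künneth decompositions and algebraicity of self-correspondences from zero-cycles. -/
theorem result {k : Type u} [Field k] {𝒱 : VarClass k}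
    (C : TheoryData.{u, v, 0} 𝒱 ℚ) [IsChowProj C] (H : WeilTheoryData.{u, v, 0} C ℚ) [IsWeilProj H]
    (hfin : ∀ X : 𝒱.Obj, Module.Finite ℚ (H.A X)) (hS : BlochSrinivas C) :
    List.TFAE [AllChowKunneth H ∧ AllAlgebraic C,
      KunnethConjecture H ∧ AllAlgebraic C,
      KunnethConjecture H ∧ AllAlgebraicOnZeroCycles C,
      KunnethConjecture H ∧ AlgebraicOnZeroCycles H] :=
  all_main hfin hS

end Pool.Agent.Results.MP_524776_ag.AlgebraicCorrespondences
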