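import Pool.Agent.Y109.Cancel

/-!
# Cancellation for Chow-Kunneth decompositions

`𝒱` is a class of smooth projective geometrically irreducible varieties over the field `k` closed
under products (for example all of them), `C` the Chow groups with rational coefficients (in the
form of their formal properties, `IsChowProj`) and `H` a Weil cohomology theory (`IsWeilProj`).

Let `h(Y) = h(X)(n) ⊕ ⊕ (Y, g_i, 0)`, where for each `i` there is an `m` such that all compositions
of `m` homologically trivial endomorphisms of `(Y, g_i, 0)` vanish. No condition is imposed on the
endomorphisms of `h(X)`. Then `Y` has a Chow-Kunneth decomposition if and only if `X` has one and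
the Künneth components of `Y` are algebraic.

For example `Y` can be the blow-up of `X` in smooth subvarieties with finite dimensional motives,
such as curves. By weak factorisation the existence of a Chow-Kunneth decomposition is
therefore a birational invariant of complex threefolds.

For the proof let `e_j` be the projectors of a Chow-Kunneth decomposition of `Y`, and let
`D = ∑ j e_j`. Modulo the nil ideal of the endomorphisms of `h(Y)` generated by the homologically
trivial ones which factor through some `(Y, g_i, 0)`, the projector `f` onto `h(X)(n)` has no
off-diagonal parts `e_b f e_a`. So `x = f D f` satisfies `∏ (x - j)^N = 0` for some `N`, and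
polynomials in `x` give a Chow-Kunneth decomposition of `X`.
-/

open CategoryTheory AlgebraicGeometry

set_option autoImplicit false

universe u v w

namespace Pool.Agent.Results.MP_524776_ag.Cancellation

open Pool.Agent.H914 Pool.Agent.W492.BB Pool.Agent.W550.Corr Pool.Agent.TH133 Pool.Agent.Y109

/-- Let `h(X)(n)` be a direct factor of `h(Y)` whose complement is the direct sum of motives
`(Y, g i, 0)` with nilpotent homologically trivial endomorphisms. Then `Y` has a Chow-Kunneth
decomposition if and only if `X` has one and the Künneth components of `Y` are algebraic. -/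
theorem result {k : Type u} [Field k] {𝒱 : VarClass k} (C : TheoryData.{u, v, 0} 𝒱 ℚ)
    [IsChowProj C] {K : Type w} [Field K] (H : WeilTheoryData.{u, v, w} C K) [IsWeilProj H]
    (X Y : 𝒱.Obj) (n : ℤ) (α : C.A (X.prod Y)) (β : C.A (Y.prod X))
    (hα : IsHom (twist C X n) (motiveOf C Y) α) (hβ : IsHom (motiveOf C Y) (twist C X n) β)
    (hαβ : C.comp α β = dg C X) {I : Type} [Fintype I] (g : I → C.A (Y.prod Y))
    (hg : ∀ i, IsMotive (⟨Y, g i, 0⟩ : Mot C)) (hsum : C.comp β α + ∑ i, g i = dg C Y)
    (hN : ∀ i, HasNilpotence H (⟨Y, g i, 0⟩ : Mot C)) :
    (∃ π, IsCK H Y π) ↔ (∃ π, IsCK H X π) ∧ KunnethAlgebraic H Y :=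
  cancel_iff hα hβ hαβ hg hsum hN

end Pool.Agent.Results.MP_524776_ag.Cancellation
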