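import Pool.Agent.Y109.Fin

/-!
# Chow-Kunneth decompositions of direct factors

`𝒱` is a class of smooth projective geometrically irreducible varieties over the field `k` closed
under products (for example all of them), `C` the Chow groups with rational coefficients (in the
form of their formal properties, `IsChowProj`) and `H` a Weil cohomology theory (`IsWeilProj`).

Let `M_i`, `i ∈ I`, be finitely many Chow motives, `M_i` pure of weight `w_i`, and let `T ⊆ I`.
Suppose that `Hom(M_i, M_j) = 0` for `i, j ∈ T` with `w_i < w_j`, and that for each `i ∉ T` there is
an `m` such that all compositions of `m` homologically trivial endomorphisms of `M_i` vanish.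
If `h(X)` is a direct factor of `⊕ M_i`, then `X` has a Chow-Kunneth decomposition.

No condition relates the `M_i`, `i ∈ T`, to the `M_i`, `i ∉ T`. For example `M_i`, `i ∈ T`, can be
the summands of the motives `h(S)(-1)` for surfaces `S`, and the other `M_i` can be arbitrary pure
motives of abelian type; this covers all fourfolds rationally dominated by products of curves.

For the proof let `f` be the projector of `⊕ M_i` onto `h(X)` and `D = ∑ w_i id_(M_i)`. The parts of
`f` raising the weights lie in a nil ideal of `End(⊕ M_i)`, so that `x = f D f` satisfies the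
equation `∏ (x - w_i)^n = 0` for some `n`. The decomposition of `id_X` into orthogonal idempotents
which are polynomials in `x` is a Chow-Kunneth decomposition.
-/

open CategoryTheory AlgebraicGeometry

set_option autoImplicit false

universe u v w

namespace Pool.Agent.Results.MP_524776_ag.DirectFactor

open Pool.Agent.H914 Pool.Agent.W492.BB Pool.Agent.TH133 Pool.Agent.Y109

/-- A variety `X` whose motive is a direct factor of a direct sum of pure motives `M i` of weights
`w i`, such that there are no non-zero morphisms `M i → M j` for `i, j ∈ T` with `w i < w j`, and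
such that the homologically trivial endomorphisms of `M i`, `i ∉ T`, are nilpotent, has a
Chow-Kunneth decomposition. -/
theorem result {k : Type u} [Field k] {𝒱 : VarClass k} (C : TheoryData.{u, v, 0} 𝒱 ℚ)
    [IsChowProj C] {K : Type w} [Field K] (H : WeilTheoryData.{u, v, w} C K) [IsWeilProj H]
    (X : 𝒱.Obj) {I : Type} [Fintype I] (M : I → Mot C) (hM : ∀ i, IsMotive (M i)) (w : I → ℤ)
    (hw : ∀ i, IsPure H (M i) (w i)) (T : Set I)
    (hT : ∀ i ∈ T, ∀ j ∈ T, w i < w j → ∀ γ, IsHom (M i) (M j) γ → γ = 0)
    (hN : ∀ i, i ∉ T → HasNilpotence H (M i)) (hX : IsDirectFactor X M) :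
    ∃ π, IsCK H X π := by
  obtain ⟨π, hπ, _⟩ := exists_isCK (H := H) hM hw T hT hN hX
  exact ⟨π, hπ⟩

end Pool.Agent.Results.MP_524776_ag.DirectFactor
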