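import Pool.Agent.Y112.KG.CK

/-!
# Chow-Künneth decompositions of a tensor product and of its factors

`C` is a `ℚ`-linear rigid symmetric monoidal category with `End 𝟙 = ℚ` and a symmetric monoidal
additive functor to finite dimensional graded vector spaces over a field `K`, for example the category
of Chow motives with Betti cohomology.
-/

set_option autoImplicit false

open CategoryTheory Limits MonoidalCategory

namespace Pool.Agent.Results.MP_524776_ag.TensorCK

open Pool.Agent.Y112.SR Pool.Agent.Y112.KD Pool.Agent.Y112.KG

universe v u w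

theorem result {C : Type u} [Category.{v} C] [Preadditive C] [Linear ℚ C] [MonoidalCategory C]
    [MonoidalPreadditive C] [MonoidalLinear ℚ C] [SymmetricCategory C] [RightRigidCategory C]
    {K : Type w} [Field K] (R : GradedRealisation C K) (hU : UnitQ C) (M N : C)
    (h : ¬ IsZero (M ⊗ N)) (hnil : ∀ f : End (M ⊗ N), R.H.map f = 0 → IsNilpotent f) :
    R.ChowKunneth (M ⊗ N) ↔ R.ChowKunneth M ∧ R.ChowKunneth N := by
  refine ck_iff R hU M N (fun h0 => h ?_) hnil
  obtain ⟨n, hn⟩ := hnil 1 (h0.eq_of_src _ _)
  rw [one_pow] at hn
  exact (IsZero.iff_id_eq_zero _).mpr hn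

end Pool.Agent.Results.MP_524776_ag.TensorCK
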